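import Pool.Agent.Work.MP_db9399_en.LOCDEF

/-!
# MP_db9399, ENGINE: locality of the good event (helper72)
-/

set_option autoImplicit false

namespace Pool.Agent.Work.MP_db9399_en

open Finset Classical
open Pool.Agent.Work.MP_db9399_all (nb pr DepOnI)

universe u

attribute [-instance] instDecidableEqSum

namespace LocAux

section
variable {V : Type u} [Fintype V] {G S : SimpleGraph V}

theorem mem_b1 {v w : V} : w ∈ b1 G v ↔ w = v ∨ G.Adj v w := by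
  rw [b1, mem_insert, mem_nb]

theorem b1_symm {v w : V} : w ∈ b1 G v ↔ v ∈ b1 G w := by
  rw [mem_b1, mem_b1, G.adj_comm v w]
  exact ⟨fun h => h.imp (fun e => e.symm) id, fun h => h.imp (fun e => e.symm) id⟩

theorem self_b1 (v : V) : v ∈ b1 G v := mem_b1.2 (Or.inl rfl)

theorem mem_b2 {v w : V} : w ∈ b2 G v ↔ ∃ x ∈ b1 G v, w ∈ b1 G x := by
  rw [b2, mem_biUnion]

theorem mem_b3 {v w : V} : w ∈ b3 G v ↔ ∃ x ∈ b2 G v, w ∈ b1 G x := by
  rw [b3, mem_biUnion]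

theorem b12 {v w : V} (h : w ∈ b1 G v) : w ∈ b2 G v := mem_b2.2 ⟨w, h, self_b1 w⟩

theorem b23 {v w : V} (h : w ∈ b2 G v) : w ∈ b3 G v := mem_b3.2 ⟨w, h, self_b1 w⟩

theorem b3_symm {v w : V} (h : w ∈ b3 G v) : v ∈ b3 G w := by
  obtain ⟨y, hy, hw⟩ := mem_b3.1 h
  obtain ⟨x, hx, hy⟩ := mem_b2.1 hy
  exact mem_b3.2 ⟨x, mem_b2.2 ⟨y, b1_symm.1 hw, b1_symm.1 hy⟩, b1_symm.1 hx⟩

theorem card_b1 {d : ℕ} (hd : ∀ v, (nb G v).card ≤ d) (v : V) : (b1 G v).card ≤ d + 1 :=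
  (card_insert_le _ _).trans (Nat.add_le_add_right (hd v) 1)

theorem card_b2 {d : ℕ} (hd : ∀ v, (nb G v).card ≤ d) (v : V) : (b2 G v).card ≤ (d + 1) ^ 2 := by
  refine (card_biUnion_le_card_mul _ _ _ fun x _ => card_b1 hd x).trans ?_
  rw [pow_two]
  exact Nat.mul_le_mul_right _ (card_b1 hd v)

theorem card_b3 {d : ℕ} (hd : ∀ v, (nb G v).card ≤ d) (v : V) : (b3 G v).card ≤ (d + 1) ^ 3 := by
  refine (card_biUnion_le_card_mul _ _ _ fun x _ => card_b1 hd x).trans ?_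
  rw [pow_succ]
  exact Nat.mul_le_mul_right _ (card_b2 hd v)

variable {P M : ℕ} {N : Fin P → V → V} {c : V → Fin P} {Km K : Finset V}
  {lab : Fin P → V → Bool} {ix : V × V → Fin P → ℕ} {K0 m1 : ℕ}
  {v : V} {ω ω' : Co V P → Fin M}

theorem st_loc (h : ∀ j ∈ Qs G v, ω j = ω' j) {x : V} (hx : x ∈ b3 G v) : st x ω = st x ω' := by
  rw [st, st, h]
  rw [Qs, mem_filter]
  exact ⟨mem_univ _, Or.inr (Or.inl ⟨x, rfl, hx⟩)⟩

theorem eg_loc (h : ∀ j ∈ Qs G v, ω j = ω' j) {x y : V} (hx : x ∈ b3 G v) (hy : y ∈ b3 G v) :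
    eg x y ω = eg x y ω' := by
  rw [eg, eg, h]
  rw [Qs, mem_filter]
  refine ⟨mem_univ _, Or.inr (Or.inr ?_)⟩
  rcases ep_mem x y with h1 | h1
  · exact ⟨x, y, by rw [h1], hx, hy⟩
  · exact ⟨y, x, by rw [h1], hy, hx⟩

theorem N_b1 (hN : ∀ b v, N b v ≠ v → G.Adj v (N b v) ∧ ¬ S.Adj v (N b v)) (b : Fin P) (x : V) :
    N b x ∈ b1 G x := by
  rw [mem_b1]
  by_cases h : N b x = x
  · exact Or.inl h
  · exact Or.inr (hN b x h).1

theorem cn_loc (hN : ∀ b v, N b v ≠ v → G.Adj v (N b v) ∧ ¬ S.Adj v (N b v))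
    (h : ∀ j ∈ Qs G v, ω j = ω' j) (b : Fin P) {x : V} (hx : x ∈ b2 G v) :
    cn N b x ω = cn N b x ω' := by
  rw [cn, cn, h]
  rw [Qs, mem_filter]
  refine ⟨mem_univ _, Or.inl ⟨b, rp N b x, rfl, ?_⟩⟩
  rcases rp_mem N b x with h1 | h1
  · rw [h1]
    exact b23 hx
  · rw [h1]
    exact mem_b3.2 ⟨x, hx, N_b1 hN b x⟩

theorem dbl_loc (hN : ∀ b v, N b v ≠ v → G.Adj v (N b v) ∧ ¬ S.Adj v (N b v))
    (h : ∀ j ∈ Qs G v, ω j = ω' j) (b : Fin P) {x : V} (hx : x ∈ b2 G v) :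
    dbl N Km K0 m1 b x ω ↔ dbl N Km K0 m1 b x ω' := by
  rw [dbl, dbl, st_loc h (b23 hx), st_loc h (mem_b3.2 ⟨x, hx, N_b1 hN b x⟩)]

theorem ac_loc (hN : ∀ b v, N b v ≠ v → G.Adj v (N b v) ∧ ¬ S.Adj v (N b v))
    (h : ∀ j ∈ Qs G v, ω j = ω' j) (b : Fin P) (s : Bool) {x : V} (hx : x ∈ b2 G v) :
    ac c N Km K0 m1 b x s ω ↔ ac c N Km K0 m1 b x s ω' := by
  rw [ac, ac, dbl_loc hN h b hx, cn_loc hN h b hx]

theorem gn_loc (h : ∀ j ∈ Qs G v, ω j = ω' j) {x y : V} (hx : x ∈ b3 G v) (hy : y ∈ b3 G v) :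
    gn K0 m1 x y ω ↔ gn K0 m1 x y ω' := by
  rw [gn, gn, eg_loc h hx hy]

theorem pk_loc (h : ∀ j ∈ Qs G v, ω j = ω' j) (b : Fin P) {x y : V} (hx : x ∈ b3 G v)
    (hy : y ∈ b3 G v) : pk ix K0 m1 b x y ω ↔ pk ix K0 m1 b x y ω' := by
  rw [pk, pk, eg_loc h hx hy]

theorem bl_loc (hN : ∀ b v, N b v ≠ v → G.Adj v (N b v) ∧ ¬ S.Adj v (N b v))
    (h : ∀ j ∈ Qs G v, ω j = ω' j) (b : Fin P) {x y : V} (hx : x ∈ b2 G v) (hy : y ∈ b2 G v) :
    bl N b x y ω ↔ bl N b x y ω' := by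
  rw [bl, bl]
  refine exists_congr fun b' => ?_
  rw [cn_loc hN h b' hx, cn_loc hN h b' hy]

theorem Sb1 (hS : S ≤ G) {x w : V} (h : w ∈ nb S x) : w ∈ b1 G x :=
  mem_b1.2 (Or.inr (hS (mem_nb.1 h)))

theorem NG_loc (hS : S ≤ G) (hN : ∀ b v, N b v ≠ v → G.Adj v (N b v) ∧ ¬ S.Adj v (N b v))
    (h : ∀ j ∈ Qs G v, ω j = ω' j) (b : Fin P) (s : Bool) :
    NG c N S Km K0 m1 b v s ω = NG c N S Km K0 m1 b v s ω' := by
  rw [NG, NG]
  refine filter_congr fun w hw => ?_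
  have h1 := Sb1 hS hw
  rw [ac_loc hN h b s (b12 h1), gn_loc h (b23 (b12 (self_b1 v))) (b23 (b12 h1))]

theorem NT_loc (hS : S ≤ G) (hN : ∀ b v, N b v ≠ v → G.Adj v (N b v) ∧ ¬ S.Adj v (N b v))
    (h : ∀ j ∈ Qs G v, ω j = ω' j) (b : Fin P) (s : Bool) :
    NT c N S Km ix K0 m1 b v s ω = NT c N S Km ix K0 m1 b v s ω' := by
  rw [NT, NT]
  refine filter_congr fun w hw => ?_
  have h1 := Sb1 hS hw
  rw [ac_loc hN h b s (b12 h1), pk_loc h b (b23 (b12 (self_b1 v))) (b23 (b12 h1))]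

theorem BB_loc (hS : S ≤ G) (hN : ∀ b v, N b v ≠ v → G.Adj v (N b v) ∧ ¬ S.Adj v (N b v))
    (h : ∀ j ∈ Qs G v, ω j = ω' j) (b : Fin P) : BB N S b v ω = BB N S b v ω' := by
  rw [BB, BB]
  refine filter_congr fun w hw => ?_
  have h1 := Sb1 hS hw
  rw [cn_loc hN h b (b12 h1), bl_loc hN h b (b12 (self_b1 v)) (b12 h1)]

theorem tn_loc (hS : S ≤ G) (h : ∀ j ∈ Qs G v, ω j = ω' j) (b : Fin P) (s : Bool) {w : V}
    (hw : w ∈ b1 G v) : tn c N S lab ix K0 m1 b s w ω = tn c N S lab ix K0 m1 b s w ω' := by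
  rw [tn, tn]
  have h2 : ({z ∈ nb S w | z ∈ tks c N lab b s ∧ pk ix K0 m1 b w z ω} : Finset V) =
      {z ∈ nb S w | z ∈ tks c N lab b s ∧ pk ix K0 m1 b w z ω'} := by
    refine filter_congr fun z hz => ?_
    have h1 := Sb1 hS hz
    rw [pk_loc h b (b23 (b12 hw)) (b23 (mem_b2.2 ⟨w, hw, h1⟩))]
  rw [h2]

theorem MM_loc (h : ∀ j ∈ Qs G v, ω j = ω' j) (s : Bool) {w : V} (hw : w ∈ b3 G v) :
    w ∈ MM Km K0 m1 s ω ↔ w ∈ MM Km K0 m1 s ω' := by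
  rw [mem_MM, mem_MM, st_loc h hw]

theorem AV_loc (hS : S ≤ G) (hN : ∀ b v, N b v ≠ v → G.Adj v (N b v) ∧ ¬ S.Adj v (N b v))
    (h : ∀ j ∈ Qs G v, ω j = ω' j) {r : ℕ} {D δ Φ : ℝ} {b : Fin P} {g : V → ℝ}
    (hA : AVv c N S Km K0 m1 r D δ b v ω g Φ) : AVv c N S Km K0 m1 r D δ b v ω' g Φ := by
  intro s
  rw [← NG_loc hS hN h b s]
  exact hA s

theorem GdV_loc (hS : S ≤ G) (hN : ∀ b v, N b v ≠ v → G.Adj v (N b v) ∧ ¬ S.Adj v (N b v))
    (h : ∀ j ∈ Qs G v, ω j = ω' j) {r T0 L : ℕ} {ρ D Dt δ Mr : ℝ} {θ θ' : ℕ → ℝ} {b : Fin P}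
    (hA : GdV c N S Km lab ix K0 m1 r T0 L ρ D Dt δ Mr θ θ' K v b ω) :
    GdV c N S Km lab ix K0 m1 r T0 L ρ D Dt δ Mr θ θ' K v b ω' := by
  refine ⟨AV_loc hS hN h hA.a0, AV_loc hS hN h hA.a1, fun s j hj => AV_loc hS hN h (hA.a2 s j hj),
    AV_loc hS hN h hA.a3, AV_loc hS hN h hA.a4, AV_loc hS hN h hA.a5, ?_, ?_, ?_, ?_, ?_, ?_⟩
  · rw [← BB_loc hS hN h b]
    exact hA.e2
  · intro hv s
    rw [← NT_loc hS hN h b s]
    exact hA.e3 hv s
  · intro hv s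
    rw [← NG_loc hS hN h b (!s)]
    have h1 := hA.e4 hv s
    have h2 : ∑ w ∈ NG c N S Km K0 m1 b v (!s) ω, tn c N S lab ix K0 m1 b s w ω' =
        ∑ w ∈ NG c N S Km K0 m1 b v (!s) ω, tn c N S lab ix K0 m1 b s w ω := by
      refine sum_congr rfl fun w hw => ?_
      exact (tn_loc hS h b s (mem_b1.2 (Or.inr (hS (mem_NG.1 hw).1)))).symm
    rw [h2]
    exact h1
  · intro hv s
    rw [← NG_loc hS hN h b s]
    have h1 := hA.e5 hv s
    have h2 : ({w ∈ NG c N S Km K0 m1 b v s ω | w ∈ MM Km K0 m1 s ω'} : Finset V) =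
        {w ∈ NG c N S Km K0 m1 b v s ω | w ∈ MM Km K0 m1 s ω} := by
      refine filter_congr fun w hw => ?_
      exact (MM_loc h s (b23 (b12 (mem_b1.2 (Or.inr (hS (mem_NG.1 hw).1)))))).symm
    rw [h2]
    exact h1
  · intro hv hv' s
    rw [← NT_loc hS hN h b s]
    have h1 := hA.e5t hv hv' s
    have h2 : ({w ∈ NT c N S Km ix K0 m1 b v s ω | w ∈ MM Km K0 m1 s ω'} : Finset V) =
        {w ∈ NT c N S Km ix K0 m1 b v s ω | w ∈ MM Km K0 m1 s ω} := by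
      refine filter_congr fun w hw => ?_
      exact (MM_loc h s (b23 (b12 (mem_b1.2 (Or.inr (hS (mem_NT.1 hw).1)))))).symm
    rw [h2]
    exact h1
  · intro hv s
    rw [← NT_loc hS hN h b s]
    exact hA.e6 hv s

end

end LocAux

open LocAux

/-- **LOC** -/
theorem stmt_LOC : Stmt_LOC.{u} := by
  intro V _ G S d P r K0 T0 L m1 M ρ D Dt δ Mr c N K Km lab ix θ θ' hE
  have hb3 : ∀ v, (b3 G v).card ≤ (d + 1) ^ 3 := card_b3 hE.dG
  refine ⟨?_, ?_, ?_, ?_, ?_⟩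
  · intro v
    refine ⟨Sum.inr (Sum.inl v), ?_⟩
    rw [Qs, mem_filter]
    exact ⟨mem_univ _, Or.inr (Or.inl ⟨v, rfl, b23 (b12 (self_b1 v))⟩)⟩
  · intro v
    have h1 : Qs (P := P) G v ⊆
        ((univ : Finset (Fin P)) ×ˢ b3 G v).image (fun p => (Sum.inl p : Co V P)) ∪
        ((b3 G v).image (fun x => (Sum.inr (Sum.inl x) : Co V P)) ∪
        (b3 G v ×ˢ b3 G v).image (fun p => (Sum.inr (Sum.inr p) : Co V P))) := by
      intro j hj
      rw [Qs, mem_filter] at hj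
      rw [mem_union, mem_union, mem_image, mem_image, mem_image]
      rcases hj.2 with ⟨b, x, rfl, hx⟩ | ⟨x, rfl, hx⟩ | ⟨x, y, rfl, hx, hy⟩
      · exact Or.inl ⟨(b, x), mem_product.2 ⟨mem_univ _, hx⟩, rfl⟩
      · exact Or.inr (Or.inl ⟨x, hx, rfl⟩)
      · exact Or.inr (Or.inr ⟨(x, y), mem_product.2 ⟨hx, hy⟩, rfl⟩)
    have h2 := card_le_card h1
    have h3 : ((univ : Finset (Fin P)) ×ˢ b3 G v).card ≤ P * (d + 1) ^ 3 := by
      rw [card_product, card_univ, Fintype.card_fin]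
      exact Nat.mul_le_mul_left _ (hb3 v)
    have h4 : (b3 G v ×ˢ b3 G v).card ≤ (d + 1) ^ 6 := by
      rw [card_product]
      calc (b3 G v).card * (b3 G v).card ≤ (d + 1) ^ 3 * (d + 1) ^ 3 :=
            Nat.mul_le_mul (hb3 v) (hb3 v)
        _ = (d + 1) ^ 6 := by ring
    have h5 := hb3 v
    have h6 : (Qs (P := P) G v).card ≤ P * (d + 1) ^ 3 + ((d + 1) ^ 3 + (d + 1) ^ 6) := by
      refine h2.trans ((card_union_le _ _).trans ?_)
      refine Nat.add_le_add (card_image_le.trans h3) ((card_union_le _ _).trans ?_)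
      exact Nat.add_le_add (card_image_le.trans h5) (card_image_le.trans h4)
    have h7 : ((Qs (P := P) G v).card : ℝ) ≤
        ((P * (d + 1) ^ 3 + ((d + 1) ^ 3 + (d + 1) ^ 6) : ℕ) : ℝ) := by exact_mod_cast h6
    refine h7.trans (le_of_eq ?_)
    push_cast
    ring
  · intro y
    have key : ∃ x, ∀ v, y ∈ Qs G v → x ∈ b3 G v := by
      rcases y with ⟨b, x⟩ | x | ⟨x, y⟩
      · refine ⟨x, fun v hv => ?_⟩
        rw [Qs, mem_filter] at hv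
        rcases hv.2 with ⟨b', x', h, hx⟩ | ⟨x', h, hx⟩ | ⟨x', y', h, hx, hy⟩
        · have := Sum.inl.inj h
          rw [(Prod.mk.inj this).2]
          exact hx
        · exact absurd h (by simp)
        · exact absurd h (by simp)
      · refine ⟨x, fun v hv => ?_⟩
        rw [Qs, mem_filter] at hv
        rcases hv.2 with ⟨b', x', h, hx⟩ | ⟨x', h, hx⟩ | ⟨x', y', h, hx, hy⟩
        · exact absurd h (by simp)
        · have := Sum.inl.inj (Sum.inr.inj h)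
          rw [this]
          exact hx
        · have := Sum.inr.inj h
          exact absurd this (by simp)
      · refine ⟨x, fun v hv => ?_⟩
        rw [Qs, mem_filter] at hv
        rcases hv.2 with ⟨b', x', h, hx⟩ | ⟨x', h, hx⟩ | ⟨x', y', h, hx, hy⟩
        · exact absurd h (by simp)
        · have := Sum.inr.inj h
          exact absurd this (by simp)
        · have := Sum.inr.inj (Sum.inr.inj h)
          rw [(Prod.mk.inj this).1]
          exact hx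
    obtain ⟨x, hx⟩ := key
    have h1 : (univ.filter fun v => y ∈ Qs G v) ⊆ b3 G x := by
      intro v hv
      rw [mem_filter] at hv
      exact b3_symm (hx v hv.2)
    have h2 : ((univ.filter fun v => y ∈ Qs G v).card : ℝ) ≤ (((d + 1) ^ 3 : ℕ) : ℝ) := by
      exact_mod_cast (card_le_card h1).trans (hb3 x)
    refine h2.trans (le_of_eq ?_)
    push_cast
    ring
  · intro v ω ω' h
    refine propext ⟨fun hA b => GdV_loc hE.hSG hE.NG h (hA b), fun hA b => ?_⟩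
    exact GdV_loc hE.hSG hE.NG (fun j hj => (h j hj).symm) (hA b)
  · intro v F ω ω' h
    have : (fun b => cn N b v ω < 8) = fun b => cn N b v ω' < 8 := by
      funext b
      rw [cn_loc hE.NG h b (b12 (self_b1 v))]
    show F (fun b => cn N b v ω < 8) = F (fun b => cn N b v ω' < 8)
    rw [this]

end Pool.Agent.Work.MP_db9399_en
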